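import Pool.Agent.H91.WSlice

set_option autoImplicit false

open H91.WSlice in
theorem Pool.Agent.Results.MP_60983f_an.Q1False.result :
    ∀ (b : ℕ) (α : ℝ), 2 ≤ b → 0 < α → α < 1 →
    ∀ (X : Type) [NormedAddCommGroup X] [MeasurableSpace X] [BorelSpace X] (ι : X → ℝ → ℝ),
      (∀ x, (∃ L, LipschitzWith L (ι x)) ∧ Function.Periodic (ι x) 1) →
      ¬ ∃ A : Set X, H91.WSlice.Shy Aᶜ ∧ ∀ x ∈ A, H91.WSlice.Good b α (ι x) :=
  fun b α h1 h2 h3 => (main b α h1 h2 h3).2
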